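import Pool.Agent.H65.NVP.INNa

/-!
# The sum over the discriminants for fixed ideals in the main range
-/

set_option autoImplicit false

open MeasureTheory Set Filter NumberField NumberField.InfinitePlace
open Pool.Agent.H65.CM4 Pool.Agent.H61.NVK Pool.Agent.H89.NV Pool.Agent.H65.NV
open scoped Real

namespace Pool.Agent.H65.NVP_INN

variable (k : Type) [Field k] [NumberField k] [IsTotallyReal k]

open Classical in
theorem pf_INN (hGAV : T_GAV k) (hDRV : T_DRV k) (hPSC : T_PSC k) (hLC : T_LC k)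
    (hLB : T_LB k) (hNWB : T_NWB k) (hWTB : T_WTB k) (hEMB : T_EMB k) (hIDL : T_IDL k) :
    T_INN k := by
  intro f q G η hf hq hG n K δ hn hδ hδ1
  obtain ⟨-, hdg, -⟩ := hEMB
  obtain ⟨-, -, -, hmul, hone, hnp, -⟩ := hIDL
  obtain ⟨j, hj⟩ := hDRV f G η hf hG
  obtain ⟨S, hS, hPS⟩ := hPSC G η hG
  have hN : (1 : ℝ) ≤ (dg k : ℝ) := by exact_mod_cast hdg
  have hN0 : (0 : ℝ) < (dg k : ℝ) := by linarith
  obtain ⟨m, hm⟩ := exists_nat_ge (((dg k : ℝ) * (14 + j) + 1) / (3 / 2 * δ))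
  have hm' : (dg k : ℝ) * (14 + j) + 1 ≤ 3 / 2 * δ * m := by
    rw [div_le_iff₀ (by positivity)] at hm; linarith
  have hm1 : 1 ≤ m := by
    rcases Nat.eq_zero_or_pos m with h | h
    · rw [h] at hm'
      have : (0 : ℝ) ≤ (dg k : ℝ) * (14 + j) := by positivity
      simp at hm'; linarith
    · exact h
  obtain ⟨CD, hCD, hD⟩ := hj m 0
  obtain ⟨CG, c, j', hCG, hc, hGV⟩ := hGAV f η m hf hG.pos hm1
  have hnq : 1 ≤ nm q := hone q hq
  have hnf : 1 ≤ nm f := hone f hf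
  have hc' : 0 < c / nm q ^ (1 / (dg k : ℝ)) := by positivity
  obtain ⟨T₀, hT₀1, hT₀⟩ := asy (10 * (dg k : ℝ)) (3 * (dg k : ℝ) + (dg k : ℝ) * j')
    (c / nm q ^ (1 / (dg k : ℝ)))
    (CG * K * (nm q * n) * (nm q * n) ^ ((m : ℝ) / (dg k : ℝ)) * CD * (2 * n) ^ j)
    (CG * K * S * (2 * n) ^ j') hc'
  refine ⟨T₀, ?_⟩
  intro T hT m₁ m₂ w e A hw hP hx hy he hA hV
  have hT1 : 1 ≤ T := le_trans hT₀1 hT
  have hT0 : 0 < T := by linarith
  have hK : 0 ≤ K := le_trans (abs_nonneg _) (hw.bd e A 0 0)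
  have hnS : ∀ s : Finset (PrI k), 1 ≤ nS s := by
    intro s
    have h := Finset.prod_le_prod_of_subset_of_one_le (s := ∅) (t := s) (f := fun P => np P)
      (Finset.empty_subset s) (by simp) (fun P _ _ => le_trans (by norm_num) (hnp P))
    simpa [nS] using h
  have hne : 1 ≤ nm e := hone e he
  have hnA : 1 ≤ nm A := hone A hA
  have hVe : nm (e ^ 2 * A) = nm e ^ 2 * nm A := by rw [hmul, pow_two, hmul, pow_two]
  obtain ⟨hPT, hV1, hV2, hxT⟩ := sizes hN hn hδ hδ1 hT1 (hnS m₁) (hnS m₂) hx hy hV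
  have hV1' : 1 ≤ nm (e ^ 2 * A) := by rw [hVe]; nlinarith [mul_le_mul hne hne (by norm_num) (by linarith)]
  have hAV : nm A ≤ nm (e ^ 2 * A) := by
    rw [hVe]; nlinarith [mul_le_mul hne hne (by norm_num) (by linarith)]
  have heA : nm e * nm A ≤ nm (e ^ 2 * A) := by
    rw [hVe]; nlinarith [mul_le_mul_of_nonneg_left hne (show (0:ℝ) ≤ nm e by linarith)]
  have hJ0 : q * e ≠ ⊥ := by
    rw [Ne, Ideal.mul_eq_bot]; tauto
  have hidS : idS (m₁ ∩ m₂) ≠ ⊥ := by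
    exact Finset.prod_ne_zero_iff.mpr fun P _ => P.2.2
  have hh0 : q * idS (m₁ ∩ m₂) ≠ ⊥ := by
    rw [Ne, Ideal.mul_eq_bot]; tauto
  have hnmS : ∀ s : Finset (PrI k), nm (idS s) = nS s := by
    intro s
    unfold idS nS
    induction s using Finset.induction_on with
    | empty => simp [nm]
    | insert P s hP ih => rw [Finset.prod_insert hP, Finset.prod_insert hP, hmul, ih]; rfl
  have hnh : nm (q * idS (m₁ ∩ m₂)) ≤ nm q * T ^ ((dg k : ℝ) / 4) := by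
    rw [hmul, hnmS]
    apply mul_le_mul_of_nonneg_left _ (by linarith)
    refine le_trans ?_ hxT
    unfold nS
    exact Finset.prod_le_prod_of_subset_of_one_le Finset.inter_subset_left
      (fun P _ => le_trans (by norm_num) (hnp P)) (fun P _ _ => le_trans (by norm_num) (hnp P))
  have hnJ : nm (q * e) = nm q * nm e := hmul q e
  have hJ1 : 1 ≤ nm (q * e) := hone _ hJ0
  have hJA : nm (q * e) * nm A ≤ nm q * nm (e ^ 2 * A) := by
    rw [hnJ, mul_assoc]; exact mul_le_mul_of_nonneg_left heA (by linarith)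
  have hnSP : 1 ≤ nS m₁ * nS m₂ := by nlinarith [hnS m₁, hnS m₂]
  obtain ⟨hmn1, hmn2⟩ := mean_eq k hLC hLB hWTB ⟨hmul, hone⟩ f q K w m₁ m₂ e A hf hq he hA hP hw
  obtain ⟨hW1, hW2, hW3⟩ := hWTB f q K w e A hf hq hA hw
  obtain ⟨hB1, hB2, -⟩ := hLB f q m₁ m₂ e A
    (fun b => ∑ c ∈ (Rs (q * (A * f ^ 2))).filter (fun c => c ∈ A * f ^ 2), w e A b c)
    hf hq he hA hP hW1 hW2
  -- the cut-off
  set V : ℝ := nm (e ^ 2 * A) with hVdef
  set Z : ℝ := n * nS m₁ * nS m₂ with hZdef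
  have hZ : 0 < Z := by
    have h1 := hnS m₁
    have h2 := hnS m₂
    rw [hZdef]; positivity
  have hx0 : 0 < V * nm f / Z := by positivity
  have hwt : ∀ d : Pl k → ℝ, wt f Z e A d = (1 / Real.sqrt V) * Vk k (V * nm f / Z / sD d) := by
    intro d
    unfold wt sd
    rw [← hVdef]
    have e1 : V / (Z * (sD d / nm f)) = V * nm f / Z / sD d := by
      rw [← mul_div_assoc, div_div_eq_mul_div, div_div]
    rw [e1]; ring
  have hsV : 0 ≤ 1 / Real.sqrt V ∧ 1 / Real.sqrt V ≤ 1 := by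
    have h1 : 1 ≤ Real.sqrt V := Real.one_le_sqrt.mpr hV1'
    exact ⟨by positivity, by rw [div_le_one (by linarith)]; exact h1⟩
  obtain ⟨hPS1, hPS2⟩ := hPS T (V * nm f / Z) hT1 hx0
  have hψc : Continuous (fun d : Pl k → ℝ => G (fun v => d v / T) * wt f Z e A d) := by
    have h1 : (fun d : Pl k → ℝ => G (fun v => d v / T) * wt f Z e A d) = fun d =>
        (1 / Real.sqrt V) * (G (fun v => d v / T) * Vk k (V * nm f / Z / sD d)) := by
      funext d; rw [hwt]; ring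
    rw [h1]; exact continuous_const.mul hPS1
  have hψb : ∀ d : Pl k → ℝ, |G (fun v => d v / T) * wt f Z e A d| ≤ S := by
    intro d
    have h1 : G (fun v => d v / T) * wt f Z e A d =
        (1 / Real.sqrt V) * (G (fun v => d v / T) * Vk k (V * nm f / Z / sD d)) := by
      rw [hwt]; ring
    rw [h1, abs_mul, abs_of_nonneg hsV.1]
    have h2 := hPS2 d
    nlinarith [abs_nonneg (G (fun v => d v / T) * Vk k (V * nm f / Z / sD d)), hsV.2]
  have hψs : ∀ u : Pl k → ℝ, (∃ v, u v ∉ Icc (η * T) (T / η)) →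
      G (fun v => u v / T) * wt f Z e A u = 0 := by
    rintro u ⟨v, hv⟩
    rw [hG.supp (fun v => u v / T) ⟨v, ?_⟩, zero_mul]
    intro h
    apply hv
    obtain ⟨h1, h2⟩ := h
    have hη := hG.pos
    constructor
    · rwa [le_div_iff₀ hT0] at h1
    · rw [div_le_iff₀ hT0] at h2
      rw [div_eq_mul_one_div, mul_comm]; exact h2
  have hL0 : 0 ≤ CD * (nm A + T) ^ j / T ^ m := by positivity
  have hDB : ∀ b ∈ f, DB m (CD * (nm A + T) ^ j / T ^ m)
      (fun d => G (fun v => d v / T) * wt f Z e A d * zf A f (em b) d) := by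
    intro b _
    have h1 := (hD A (em b) T (V * nm f / Z) hA hT1 hx0).2
    have h2 : (1 + V * nm f / Z / T ^ ((dg k : ℝ) / 2)) ^ (-((0 : ℕ) : ℝ)) = 1 := by simp
    rw [h2, mul_one] at h1
    have h3 := DB_smul h1 hsV.1 hsV.2 hL0
    have h4 : (fun d : Pl k → ℝ => G (fun v => d v / T) * wt f Z e A d * zf A f (em b) d) =
        fun d => (1 / Real.sqrt V) * (G (fun v => d v / T) *
          (Vk k (V * nm f / Z / sD d) * zf A f (em b) d)) := by
      funext d; rw [hwt]; ring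
    rw [h4]; exact h3
  have hXb : ∀ b ∈ f, ∀ c ∈ A * f ^ 2, |w e A b c * (Nw f m₁ m₂ e A b c : ℝ)| ≤
      K * (nS m₁ * nS m₂) ^ 4 := by
    intro b _ c _
    rw [abs_mul, abs_of_nonneg (Nat.cast_nonneg (α := ℝ) (Nw f m₁ m₂ e A b c))]
    exact mul_le_mul (hw.bd e A b c) (hNWB f m₁ m₂ e A b c hf hA).1 (Nat.cast_nonneg _) hK
  have hXp : ∀ b ∈ f, ∀ c ∈ A * f ^ 2, ∀ y ∈ (q * e) * (A * f ^ 2),
      w e A b (c + y) * (Nw f m₁ m₂ e A b (c + y) : ℝ) = w e A b c * (Nw f m₁ m₂ e A b c : ℝ) := by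
    intro b hb c hc y hy
    exact (hLC f q m₁ m₂ e A b (w e A b) hf hq he hA hP hb
      (fun c hc x hx => hw.perC e A b c hb hc x hx)).1 c hc y hy
  have hle2 : ∀ b ∈ f, ∀ z ∈ ni k 2 * (A * f), b + z ∈ f := by
    intro b hb z hz
    have h1 : z ∈ A * f := (Ideal.mul_le_right : ni k 2 * (A * f) ≤ A * f) hz
    have h2 : z ∈ f := (Ideal.mul_le_right : A * f ≤ f) h1
    exact f.add_mem hb h2
  have hle3 : ∀ b ∈ f, ∀ z ∈ (q * idS (m₁ ∩ m₂)) * f, b + z ∈ f := by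
    intro b hb z hz
    have h2 : z ∈ f := (Ideal.mul_le_right : (q * idS (m₁ ∩ m₂)) * f ≤ f) hz
    exact f.add_mem hb h2
  have hG1 := hGV A (q * e) (q * idS (m₁ ∩ m₂)) (fun b c => w e A b c * (Nw f m₁ m₂ e A b c : ℝ))
    (fun d => G (fun v => d v / T) * wt f Z e A d) T (K * (nS m₁ * nS m₂) ^ 4)
    (CD * (nm A + T) ^ j / T ^ m) S hA hJ0 hh0 hT1 hL0 hψc hψb hψs hXb hXp
    (fun b hb z hz => by
      rw [hmn1 b hb, hmn1 (b + z) (hle2 b hb z hz)]
      rw [hB1 b hb z hz])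
    (fun b hb z hz => by
      rw [hmn1 b hb, hmn1 (b + z) (hle3 b hb z hz)]
      rw [hB2 b hb z hz]) hDB
  rw [hmn2] at hG1
  -- rewriting
  have hTm : (∑' D : 𝓞 k, Tm f G T n m₁ m₂ w e A D) =
      ∑' D : 𝓞 k, ∑ b ∈ bs f A D, G (fun v => em D v / T) * wt f Z e A (em D) *
        (w e A b (q4 (b ^ 2 + D)) * (Nw f m₁ m₂ e A b (q4 (b ^ 2 + D)) : ℝ) *
          zf A f (em b) (em D)) := by
    apply tsum_congr
    intro D
    unfold Tm
    rw [Finset.mul_sum]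
    apply Finset.sum_congr rfl
    intro b _
    rw [← hZdef]; ring
  have hDm : kf f / 2 ^ dg k * (wbar f q w e A * Nb m₁ m₂ e A) *
      (∫ d : Pl k → ℝ, G (fun v => d v / T) * wt f Z e A d * ct A f d) =
      kf f / 2 ^ dg k * ∫ d, Dm f q G T n m₁ m₂ w e A d := by
    rw [mul_assoc, ← integral_const_mul]
    congr 2
    funext d
    unfold Dm
    rw [← hZdef]; ring
  rw [hTm, ← hDm]
  refine le_trans hG1 ?_
  obtain ⟨hA1, hA2⟩ := hT₀ T hT
  have e1 := err1 (δ := δ) (j := j) (m := m) hN hn hT1 hK hnSP hPT hCG.le hCD.le hV1 hV2 hnq hnA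
    hAV hJ1 hJA hm'
  have e2 := err2 (j := j') hN hn hT1 hK hnSP hPT hCG.le hS.le (le_trans hAV hV2) hnq hnA
    (hone _ hh0) hnh hc
  have hTn : T ^ dg k = T ^ (dg k : ℝ) := (Real.rpow_natCast T (dg k)).symm
  rw [hTn, hmul (q * e) A]
  calc CG * (K * (nS m₁ * nS m₂) ^ 4) * T ^ (dg k : ℝ) *
      (nm A * nm (q * e) * (nm (q * e) * nm A) ^ ((m : ℝ) / (dg k : ℝ)) *
        (CD * (nm A + T) ^ j / T ^ m) +
        S * (nm A + T) ^ j' * Real.exp (-(c * (T ^ ((dg k : ℝ) / 2) /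
          nm (q * idS (m₁ ∩ m₂))) ^ (1 / (dg k : ℝ)))))
      = CG * (K * (nS m₁ * nS m₂) ^ 4) * T ^ (dg k : ℝ) *
      (nm A * nm (q * e) * (nm (q * e) * nm A) ^ ((m : ℝ) / (dg k : ℝ)) *
        (CD * (nm A + T) ^ j / T ^ m)) +
        CG * (K * (nS m₁ * nS m₂) ^ 4) * T ^ (dg k : ℝ) *
        (S * (nm A + T) ^ j' * Real.exp (-(c * (T ^ ((dg k : ℝ) / 2) /
          nm (q * idS (m₁ ∩ m₂))) ^ (1 / (dg k : ℝ))))) := by ring
    _ ≤ 1 / 2 * T ^ (-(10 * (dg k : ℝ))) + 1 / 2 * T ^ (-(10 * (dg k : ℝ))) :=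
        add_le_add (le_trans e1 hA1) (le_trans e2 hA2)
    _ = T ^ (-(10 * (dg k : ℝ))) := by ring

end Pool.Agent.H65.NVP_INN
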