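import Pool.Agent.H65.NV.PTargets

/-!
# The sum over the discriminants for fixed ideals in the main range: lemmas
-/

set_option autoImplicit false

open MeasureTheory Set Filter NumberField NumberField.InfinitePlace
open Pool.Agent.H65.CM4 Pool.Agent.H61.NVK Pool.Agent.H89.NV Pool.Agent.H65.NV
open scoped Real

namespace Pool.Agent.H65.NVP_INN

theorem DB_smul {k : Type} [Field k] [NumberField k] {m : ℕ} {L a : ℝ}
    {φ : (Pl k → ℝ) → ℝ} (h : DB m L φ) (ha : 0 ≤ a) (ha1 : a ≤ 1) (hL : 0 ≤ L) :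
    DB m L (fun d => a * φ d) := by
  refine ⟨continuous_const.mul h.cont, fun p e he => contDiff_const.mul (h.sm p e he), ?_⟩
  intro p e he
  have h1 : iteratedDeriv m (fun s : ℝ => a * φ (p + s • e)) 0 =
      a * iteratedDeriv m (fun s : ℝ => φ (p + s • e)) 0 :=
    iteratedDeriv_const_mul_field a (fun s : ℝ => φ (p + s • e))
  rw [h1, abs_mul, abs_of_nonneg ha]
  have h2 := h.bd p e he
  have h3 := abs_nonneg (iteratedDeriv m (fun s : ℝ => φ (p + s • e)) 0)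
  nlinarith

variable (k : Type) [Field k] [NumberField k] [IsTotallyReal k]

open Classical in
/-- the mean of the weight -/
theorem mean_eq (hLC : T_LC k) (hLB : T_LB k) (hWTB : T_WTB k)
    (hNM : (∀ I J : Ideal (𝓞 k), nm (I * J) = nm I * nm J) ∧ ∀ I : Ideal (𝓞 k), I ≠ ⊥ → 1 ≤ nm I)
    (f q : Ideal (𝓞 k)) (K : ℝ) (w : WW k) (m₁ m₂ : Finset (PrI k)) (e A : Ideal (𝓞 k))
    (hf : f ≠ ⊥) (hq : q ≠ ⊥) (he : e ≠ ⊥) (hA : A ≠ ⊥) (hP : ∀ P ∈ m₁ ∪ m₂, ¬ P.1 ∣ q)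
    (hw : WD f q K w) :
    (∀ b ∈ f, ∑ c ∈ (Rs ((q * e) * (A * f ^ 2))).filter (fun c => c ∈ A * f ^ 2),
      w e A b c * Nw f m₁ m₂ e A b c = nm e *
        ((∑ c ∈ (Rs (q * (A * f ^ 2))).filter (fun c => c ∈ A * f ^ 2), w e A b c) *
          Nc f m₁ m₂ e A b)) ∧
    (∑ b ∈ (Rs (ni k 2 * (A * f))).filter (fun b => b ∈ f),
      ∑ c ∈ (Rs ((q * e) * (A * f ^ 2))).filter (fun c => c ∈ A * f ^ 2),
        w e A b c * Nw f m₁ m₂ e A b c) / (2 ^ dg k * nm A * nm (q * e)) =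
      wbar f q w e A * Nb m₁ m₂ e A := by
  have hne : 0 < nm e := lt_of_lt_of_le one_pos (hNM.2 e he)
  have hnq : 0 < nm q := lt_of_lt_of_le one_pos (hNM.2 q hq)
  have hnA : 0 < nm A := lt_of_lt_of_le one_pos (hNM.2 A hA)
  have h1 : ∀ b ∈ f, ∑ c ∈ (Rs ((q * e) * (A * f ^ 2))).filter (fun c => c ∈ A * f ^ 2),
      w e A b c * Nw f m₁ m₂ e A b c = nm e *
        ((∑ c ∈ (Rs (q * (A * f ^ 2))).filter (fun c => c ∈ A * f ^ 2), w e A b c) *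
          Nc f m₁ m₂ e A b) := by
    intro b hb
    have h := (hLC f q m₁ m₂ e A b (w e A b) hf hq he hA hP hb
      (fun c hc x hx => hw.perC e A b c hb hc x hx)).2
    rw [← h]; field_simp
  refine ⟨h1, ?_⟩
  have h2 : ∑ b ∈ (Rs (ni k 2 * (A * f))).filter (fun b => b ∈ f),
      ∑ c ∈ (Rs ((q * e) * (A * f ^ 2))).filter (fun c => c ∈ A * f ^ 2),
        w e A b c * Nw f m₁ m₂ e A b c = nm e * ∑ b ∈ (Rs (ni k 2 * (A * f))).filter
          (fun b => b ∈ f),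
        (∑ c ∈ (Rs (q * (A * f ^ 2))).filter (fun c => c ∈ A * f ^ 2), w e A b c) *
          Nc f m₁ m₂ e A b := by
    rw [Finset.mul_sum]
    exact Finset.sum_congr rfl fun b hb => h1 b (Finset.mem_filter.mp hb).2
  obtain ⟨hW1, hW2, -⟩ := hWTB f q K w e A hf hq hA hw
  have h3 := (hLB f q m₁ m₂ e A
    (fun b => ∑ c ∈ (Rs (q * (A * f ^ 2))).filter (fun c => c ∈ A * f ^ 2), w e A b c)
    hf hq he hA hP hW1 hW2).2.2
  rw [h2, hNM.1]
  have h4 : (nm e * ∑ b ∈ (Rs (ni k 2 * (A * f))).filter (fun b => b ∈ f),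
        (∑ c ∈ (Rs (q * (A * f ^ 2))).filter (fun c => c ∈ A * f ^ 2), w e A b c) *
          Nc f m₁ m₂ e A b) / (2 ^ dg k * nm A * (nm q * nm e)) =
      ((∑ b ∈ (Rs (ni k 2 * (A * f))).filter (fun b => b ∈ f),
        (∑ c ∈ (Rs (q * (A * f ^ 2))).filter (fun c => c ∈ A * f ^ 2), w e A b c) *
          Nc f m₁ m₂ e A b) / (2 ^ dg k * nm A)) / nm q := by
    field_simp
  rw [h4, h3]
  unfold wbar
  field_simp

/-- (ASY) asymptotics of the two errors -/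
theorem asy (a b c : ℝ) (C₁ C₂ : ℝ) (hc : 0 < c) :
    ∃ T₀ : ℝ, 1 ≤ T₀ ∧ ∀ T : ℝ, T₀ ≤ T → C₁ * T ^ (-a - 1) ≤ 1 / 2 * T ^ (-a) ∧
      C₂ * T ^ b * Real.exp (-(c * T ^ (1 / 4 : ℝ))) ≤ 1 / 2 * T ^ (-a) := by
  have h1 : Tendsto (fun T : ℝ => T ^ (1 / 4 : ℝ)) atTop atTop := tendsto_rpow_atTop (by norm_num)
  have h2 := (tendsto_rpow_mul_exp_neg_mul_atTop_nhds_zero (4 * (b + a)) c hc).comp h1
  have h3 : Tendsto (fun T : ℝ => C₂ * ((fun x : ℝ => x ^ (4 * (b + a)) * Real.exp (-c * x)) ∘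
      fun T : ℝ => T ^ (1 / 4 : ℝ)) T) atTop (nhds (C₂ * 0)) := h2.const_mul C₂
  rw [mul_zero] at h3
  have h4 := h3.eventually (gt_mem_nhds (show (0 : ℝ) < 1 / 2 by norm_num))
  obtain ⟨T₁, hT₁⟩ := eventually_atTop.mp h4
  refine ⟨max (max 1 T₁) (2 * C₁), le_max_of_le_left (le_max_left _ _), ?_⟩
  intro T hT
  have hT1 : 1 ≤ T := le_trans (le_trans (le_max_left _ _) (le_max_left _ _)) hT
  have hT0 : 0 < T := by linarith
  have hT2 : T₁ ≤ T := le_trans (le_trans (le_max_right _ _) (le_max_left _ _)) hT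
  have hT3 : 2 * C₁ ≤ T := le_trans (le_max_right _ _) hT
  constructor
  · have e1 : T ^ (-a - 1) = T ^ (-a) * T⁻¹ := by
      rw [show -a - 1 = -a + (-1) by ring, Real.rpow_add hT0, Real.rpow_neg_one]
    rw [e1]
    have h5 : 0 < T ^ (-a) := Real.rpow_pos_of_pos hT0 _
    have h6 : C₁ * T⁻¹ ≤ 1 / 2 := by
      rw [← div_eq_mul_inv, div_le_iff₀ hT0]; linarith
    calc C₁ * (T ^ (-a) * T⁻¹) = (C₁ * T⁻¹) * T ^ (-a) := by ring
      _ ≤ 1 / 2 * T ^ (-a) := mul_le_mul_of_nonneg_right h6 h5.le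
  · have h5 := hT₁ T hT2
    simp only [Function.comp] at h5
    have h6 : (T ^ (1 / 4 : ℝ)) ^ (4 * (b + a)) = T ^ (b + a) := by
      rw [← Real.rpow_mul hT0.le]; congr 1; ring
    rw [h6, Real.rpow_add hT0] at h5
    have h7 : 0 < T ^ a := Real.rpow_pos_of_pos hT0 _
    have h8 : T ^ (-a) = (T ^ a)⁻¹ := Real.rpow_neg hT0.le a
    rw [h8]
    rw [show -c * T ^ (1 / 4 : ℝ) = -(c * T ^ (1 / 4 : ℝ)) by ring] at h5
    rw [← div_eq_mul_inv, le_div_iff₀ h7]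
    nlinarith [h5]

/-- the sizes -/
theorem sizes {N n δ T x y V : ℝ} (hN : 1 ≤ N) (hn : 1 ≤ n) (hδ : 0 < δ) (hδ1 : δ ≤ 1 / 100)
    (hT : 1 ≤ T) (hx : 1 ≤ x) (hy : 1 ≤ y) (hxT : x ≤ T ^ (N * (1 / 4 - δ)))
    (hyT : y ≤ T ^ (N * (1 / 4 - δ))) (hV : V ≤ n * x * y * T ^ (N * (1 / 2 + δ / 2))) :
    x * y ≤ T ^ (N / 2) ∧ V ≤ n * T ^ (N - 3 / 2 * δ * N) ∧ V ≤ n * T ^ N ∧ x ≤ T ^ (N / 4) := by
  have hT0 : 0 < T := by linarith
  have h1 : x * y ≤ T ^ (N * (1 / 2 - 2 * δ)) := by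
    calc x * y ≤ T ^ (N * (1 / 4 - δ)) * T ^ (N * (1 / 4 - δ)) :=
          mul_le_mul hxT hyT (by linarith) (Real.rpow_nonneg hT0.le _)
      _ = T ^ (N * (1 / 2 - 2 * δ)) := by rw [← Real.rpow_add hT0]; congr 1; ring
  have h2 : V ≤ n * T ^ (N - 3 / 2 * δ * N) := by
    calc V ≤ n * x * y * T ^ (N * (1 / 2 + δ / 2)) := hV
      _ = n * ((x * y) * T ^ (N * (1 / 2 + δ / 2))) := by ring
      _ ≤ n * (T ^ (N * (1 / 2 - 2 * δ)) * T ^ (N * (1 / 2 + δ / 2))) := by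
          apply mul_le_mul_of_nonneg_left _ (by linarith)
          exact mul_le_mul_of_nonneg_right h1 (Real.rpow_nonneg hT0.le _)
      _ = n * T ^ (N - 3 / 2 * δ * N) := by
          rw [← Real.rpow_add hT0]; congr 2; ring
  refine ⟨le_trans h1 (Real.rpow_le_rpow_of_exponent_le hT (by nlinarith)), h2, ?_, ?_⟩
  · refine le_trans h2 (mul_le_mul_of_nonneg_left ?_ (by linarith))
    exact Real.rpow_le_rpow_of_exponent_le hT (by nlinarith)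
  · exact le_trans hxT (Real.rpow_le_rpow_of_exponent_le hT (by nlinarith))

/-- the first error -/
theorem err1 {N n δ T V nA nJ nq K P CG CD : ℝ} {j m : ℕ} (hN : 1 ≤ N) (hn : 1 ≤ n)
    (hT : 1 ≤ T) (hK : 0 ≤ K) (hP : 1 ≤ P) (hPT : P ≤ T ^ (N / 2)) (hCG : 0 ≤ CG) (hCD : 0 ≤ CD)
    (hV : V ≤ n * T ^ (N - 3 / 2 * δ * N)) (hV2 : V ≤ n * T ^ N) (hq : 1 ≤ nq) (hnA : 1 ≤ nA)
    (hAV : nA ≤ V) (hJ : 1 ≤ nJ) (hJA : nJ * nA ≤ nq * V)
    (hm : N * (14 + j) + 1 ≤ 3 / 2 * δ * m) :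
    CG * (K * P ^ 4) * T ^ N * (nA * nJ * (nJ * nA) ^ ((m : ℝ) / N) *
      (CD * (nA + T) ^ j / T ^ m)) ≤
      (CG * K * (nq * n) * (nq * n) ^ ((m : ℝ) / N) * CD * (2 * n) ^ j) *
        T ^ (-(10 * N) - 1) := by
  have hT0 : 0 < T := by linarith
  have hN0 : 0 < N := by linarith
  have hTN : T ≤ T ^ N := by
    calc T = T ^ (1 : ℝ) := (Real.rpow_one T).symm
      _ ≤ T ^ N := Real.rpow_le_rpow_of_exponent_le hT hN
  have hTN0 : 0 < T ^ N := Real.rpow_pos_of_pos hT0 _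
  have h1 : P ^ 4 ≤ T ^ (2 * N) := by
    calc P ^ 4 ≤ (T ^ (N / 2)) ^ 4 := pow_le_pow_left₀ (by linarith) hPT 4
      _ = T ^ (2 * N) := by
          rw [← Real.rpow_natCast, ← Real.rpow_mul hT0.le]; congr 1; push_cast; ring
  have h2 : nA * nJ ≤ nq * n * T ^ N := by
    calc nA * nJ = nJ * nA := mul_comm _ _
      _ ≤ nq * V := hJA
      _ ≤ nq * (n * T ^ N) := mul_le_mul_of_nonneg_left hV2 (by linarith)
      _ = nq * n * T ^ N := by ring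
  have h3 : (nJ * nA) ^ ((m : ℝ) / N) ≤ (nq * n) ^ ((m : ℝ) / N) * T ^ (m - 3 / 2 * δ * m) := by
    have h31 : nJ * nA ≤ nq * n * T ^ (N - 3 / 2 * δ * N) := by
      calc nJ * nA ≤ nq * V := hJA
        _ ≤ nq * (n * T ^ (N - 3 / 2 * δ * N)) := mul_le_mul_of_nonneg_left hV (by linarith)
        _ = nq * n * T ^ (N - 3 / 2 * δ * N) := by ring
    calc (nJ * nA) ^ ((m : ℝ) / N) ≤ (nq * n * T ^ (N - 3 / 2 * δ * N)) ^ ((m : ℝ) / N) :=
          Real.rpow_le_rpow (by positivity) h31 (by positivity)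
      _ = (nq * n) ^ ((m : ℝ) / N) * (T ^ (N - 3 / 2 * δ * N)) ^ ((m : ℝ) / N) :=
          Real.mul_rpow (by positivity) (Real.rpow_nonneg hT0.le _)
      _ = (nq * n) ^ ((m : ℝ) / N) * T ^ (m - 3 / 2 * δ * m) := by
          rw [← Real.rpow_mul hT0.le]; congr 2; field_simp
  have h4 : (nA + T) ^ j ≤ (2 * n) ^ j * T ^ (N * j) := by
    calc (nA + T) ^ j ≤ (2 * n * T ^ N) ^ j := by
          apply pow_le_pow_left₀ (by linarith)
          nlinarith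
      _ = (2 * n) ^ j * T ^ (N * j) := by
          rw [mul_pow, Real.rpow_mul hT0.le, Real.rpow_natCast]
  have h5 : (T ^ m)⁻¹ = T ^ (-(m : ℝ)) := by rw [Real.rpow_neg hT0.le, Real.rpow_natCast]
  have p1 : 0 ≤ T ^ (2 * N) := Real.rpow_nonneg hT0.le _
  have p2 : 0 ≤ (nq * n) ^ ((m : ℝ) / N) := Real.rpow_nonneg (by positivity) _
  have p3 : 0 ≤ T ^ (m - 3 / 2 * δ * m) := Real.rpow_nonneg hT0.le _
  have p4 : 0 ≤ T ^ (N * j) := Real.rpow_nonneg hT0.le _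
  have p5 : 0 ≤ T ^ (-(m : ℝ)) := Real.rpow_nonneg hT0.le _
  have p6 : 0 ≤ (nJ * nA) ^ ((m : ℝ) / N) := Real.rpow_nonneg (by positivity) _
  calc CG * (K * P ^ 4) * T ^ N * (nA * nJ * (nJ * nA) ^ ((m : ℝ) / N) *
      (CD * (nA + T) ^ j / T ^ m))
      = CG * (K * P ^ 4) * T ^ N * (nA * nJ * (nJ * nA) ^ ((m : ℝ) / N) *
      (CD * (nA + T) ^ j * T ^ (-(m : ℝ)))) := by rw [← h5]; ring
    _ ≤ CG * (K * T ^ (2 * N)) * T ^ N * ((nq * n * T ^ N) * ((nq * n) ^ ((m : ℝ) / N) *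
        T ^ (m - 3 / 2 * δ * m)) * (CD * ((2 * n) ^ j * T ^ (N * j)) * T ^ (-(m : ℝ)))) := by
        gcongr
    _ = (CG * K * (nq * n) * (nq * n) ^ ((m : ℝ) / N) * CD * (2 * n) ^ j) *
        (T ^ (2 * N) * T ^ N * T ^ N * T ^ (m - 3 / 2 * δ * m) * T ^ (N * j) *
          T ^ (-(m : ℝ))) := by ring
    _ = (CG * K * (nq * n) * (nq * n) ^ ((m : ℝ) / N) * CD * (2 * n) ^ j) *
        T ^ (2 * N + N + N + (m - 3 / 2 * δ * m) + N * j + -(m : ℝ)) := by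
        rw [Real.rpow_add hT0, Real.rpow_add hT0, Real.rpow_add hT0, Real.rpow_add hT0,
          Real.rpow_add hT0]
    _ ≤ (CG * K * (nq * n) * (nq * n) ^ ((m : ℝ) / N) * CD * (2 * n) ^ j) *
        T ^ (-(10 * N) - 1) := by
        apply mul_le_mul_of_nonneg_left _ (by positivity)
        apply Real.rpow_le_rpow_of_exponent_le hT
        nlinarith

/-- the second error -/
theorem err2 {N n T nA nh nq K P CG S c : ℝ} {j : ℕ} (hN : 1 ≤ N) (hn : 1 ≤ n)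
    (hT : 1 ≤ T) (hK : 0 ≤ K) (hP : 1 ≤ P) (hPT : P ≤ T ^ (N / 2)) (hCG : 0 ≤ CG) (hS : 0 ≤ S)
    (hA2 : nA ≤ n * T ^ N) (hq : 1 ≤ nq) (hnA : 1 ≤ nA) (hh0 : 1 ≤ nh)
    (hh : nh ≤ nq * T ^ (N / 4)) (hc : 0 < c) :
    CG * (K * P ^ 4) * T ^ N * (S * (nA + T) ^ j *
      Real.exp (-(c * (T ^ (N / 2) / nh) ^ (1 / N)))) ≤
      (CG * K * S * (2 * n) ^ j) * T ^ (3 * N + N * j) *
        Real.exp (-(c / nq ^ (1 / N) * T ^ (1 / 4 : ℝ))) := by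
  have hT0 : 0 < T := by linarith
  have hN0 : 0 < N := by linarith
  have hTN : T ≤ T ^ N := by
    calc T = T ^ (1 : ℝ) := (Real.rpow_one T).symm
      _ ≤ T ^ N := Real.rpow_le_rpow_of_exponent_le hT hN
  have h1 : P ^ 4 ≤ T ^ (2 * N) := by
    calc P ^ 4 ≤ (T ^ (N / 2)) ^ 4 := pow_le_pow_left₀ (by linarith) hPT 4
      _ = T ^ (2 * N) := by
          rw [← Real.rpow_natCast, ← Real.rpow_mul hT0.le]; congr 1; push_cast; ring
  have h4 : (nA + T) ^ j ≤ (2 * n) ^ j * T ^ (N * j) := by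
    calc (nA + T) ^ j ≤ (2 * n * T ^ N) ^ j := by
          apply pow_le_pow_left₀ (by linarith)
          nlinarith
      _ = (2 * n) ^ j * T ^ (N * j) := by
          rw [mul_pow, Real.rpow_mul hT0.le, Real.rpow_natCast]
  have h5 : T ^ (1 / 4 : ℝ) / nq ^ (1 / N) ≤ (T ^ (N / 2) / nh) ^ (1 / N) := by
    have h51 : T ^ (N / 4) / nq ≤ T ^ (N / 2) / nh := by
      rw [div_le_div_iff₀ (by linarith) (by linarith)]
      calc T ^ (N / 4) * nh ≤ T ^ (N / 4) * (nq * T ^ (N / 4)) :=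
            mul_le_mul_of_nonneg_left hh (Real.rpow_nonneg hT0.le _)
        _ = (T ^ (N / 4) * T ^ (N / 4)) * nq := by ring
        _ = T ^ (N / 2) * nq := by
            rw [← Real.rpow_add hT0]; congr 2; ring
    calc T ^ (1 / 4 : ℝ) / nq ^ (1 / N) = (T ^ (N / 4) / nq) ^ (1 / N) := by
          rw [Real.div_rpow (Real.rpow_nonneg hT0.le _) (by linarith), ← Real.rpow_mul hT0.le]
          congr 2; field_simp
      _ ≤ _ := Real.rpow_le_rpow (by positivity) h51 (by positivity)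
  have h6 : Real.exp (-(c * (T ^ (N / 2) / nh) ^ (1 / N))) ≤
      Real.exp (-(c / nq ^ (1 / N) * T ^ (1 / 4 : ℝ))) := by
    apply Real.exp_le_exp.mpr
    have := mul_le_mul_of_nonneg_left h5 hc.le
    have e : c / nq ^ (1 / N) * T ^ (1 / 4 : ℝ) = c * (T ^ (1 / 4 : ℝ) / nq ^ (1 / N)) := by ring
    rw [e]; linarith
  have p1 : 0 ≤ T ^ (2 * N) := Real.rpow_nonneg hT0.le _
  have p4 : 0 ≤ T ^ (N * j) := Real.rpow_nonneg hT0.le _
  calc CG * (K * P ^ 4) * T ^ N * (S * (nA + T) ^ j *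
      Real.exp (-(c * (T ^ (N / 2) / nh) ^ (1 / N))))
      ≤ CG * (K * T ^ (2 * N)) * T ^ N * (S * ((2 * n) ^ j * T ^ (N * j)) *
      Real.exp (-(c / nq ^ (1 / N) * T ^ (1 / 4 : ℝ)))) := by gcongr
    _ = (CG * K * S * (2 * n) ^ j) * (T ^ (2 * N) * T ^ N * T ^ (N * j)) *
        Real.exp (-(c / nq ^ (1 / N) * T ^ (1 / 4 : ℝ))) := by ring
    _ = (CG * K * S * (2 * n) ^ j) * T ^ (3 * N + N * j) *
        Real.exp (-(c / nq ^ (1 / N) * T ^ (1 / 4 : ℝ))) := by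
        rw [← Real.rpow_add hT0, ← Real.rpow_add hT0]; congr 3; ring

end Pool.Agent.H65.NVP_INN
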